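import Pool.Agent.Y52.SJ.Stm

/-! WITT: the symplectic group is transitive on hyperbolic pairs. -/

set_option autoImplicit false

namespace Pool.Agent.Y540.SJ

open Pool.Agent.Y52.SJ

variable {V : Type} [NormedAddCommGroup V] [InnerProductSpace ℝ V]

theorem om_add_left (J : V →L[ℝ] V) (x y z : V) : om J (x + y) z = om J x z + om J y z := by
  simp [om, inner_add_left]
theorem om_add_right (J : V →L[ℝ] V) (x y z : V) : om J x (y + z) = om J x y + om J x z := by
  simp [om, inner_add_right]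
theorem om_sub_right (J : V →L[ℝ] V) (x y z : V) : om J x (y - z) = om J x y - om J x z := by
  simp [om, inner_sub_right]
theorem om_smul_left (J : V →L[ℝ] V) (c : ℝ) (x z : V) : om J (c • x) z = c * om J x z := by
  simp [om, real_inner_smul_left]
theorem om_smul_right (J : V →L[ℝ] V) (c : ℝ) (x z : V) : om J x (c • z) = c * om J x z := by
  simp [om, real_inner_smul_right]

theorem om_anti {J : V →L[ℝ] V} (hJ : IsCS J) (x y : V) : om J y x = - om J x y := by
  unfold om
  have h := hJ.2 x (J y)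
  rw [hJ.1, inner_neg_right] at h
  rw [← real_inner_comm, ← h]
theorem om_self {J : V →L[ℝ] V} (hJ : IsCS J) (x : V) : om J x x = 0 := by
  have := om_anti hJ x x
  linarith
theorem om_J {J : V →L[ℝ] V} (hJ : IsCS J) (x : V) : om J x (J x) = ‖x‖ ^ 2 := by
  unfold om
  rw [hJ.2, real_inner_self_eq_norm_sq]

/-- transvection -/
noncomputable def tv (J : V →L[ℝ] V) (c : ℝ) (w : V) : V →L[ℝ] V :=
  ContinuousLinearMap.id ℝ V + (c • ((innerSL ℝ w).comp J)).smulRight w

theorem tv_apply (J : V →L[ℝ] V) (c : ℝ) (w x : V) : tv J c w x = x + (c * om J x w) • w := by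
  simp [tv, om, real_inner_comm]

theorem conf_tv {J : V →L[ℝ] V} (hJ : IsCS J) (c : ℝ) (w : V) : Conf J (tv J c w) 1 := by
  intro x y
  rw [tv_apply, tv_apply, om_add_left, om_add_right, om_add_right, om_smul_left, om_smul_right,
    om_smul_left, om_smul_right, om_self hJ w, om_anti hJ y w]
  ring

theorem conf_comp {J P Q : V →L[ℝ] V} (hP : Conf J P 1) (hQ : Conf J Q 1) :
    Conf J (P.comp Q) 1 := by
  intro x y
  have := hP (Q x) (Q y)
  have h2 := hQ x y
  simp only [ContinuousLinearMap.comp_apply]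
  rw [this, h2]; ring

/-- one transvection maps `v` to `e` if `om J v e ≠ 0` -/
theorem step1 {J : V →L[ℝ] V} (hJ : IsCS J) {v e : V} (h : om J v e ≠ 0) :
    tv J (om J v e)⁻¹ (e - v) v = e := by
  rw [tv_apply, om_sub_right, om_self hJ v, sub_zero, inv_mul_cancel₀ h, one_smul]
  abel

/-- it fixes `x` if `om J x (e - v) = 0` -/
theorem step1_fix {J : V →L[ℝ] V} {c : ℝ} {w x : V} (h : om J x w = 0) :
    tv J c w x = x := by
  rw [tv_apply, h, mul_zero, zero_smul, add_zero]

theorem trans1 {J : V →L[ℝ] V} (hJ : IsCS J) {v e : V} (hv : v ≠ 0) (he : e ≠ 0) :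
    ∃ P : V →L[ℝ] V, Conf J P 1 ∧ P v = e := by
  by_cases h : om J v e ≠ 0
  · exact ⟨_, conf_tv hJ _ _, step1 hJ h⟩
  · push Not at h
    have hg : ∃ g, om J v g ≠ 0 ∧ om J g e ≠ 0 := by
      have hv2 : ‖v‖ ^ 2 ≠ 0 := by positivity
      have he2 : ‖e‖ ^ 2 ≠ 0 := by positivity
      by_cases h1 : om J (J v) e ≠ 0
      · exact ⟨J v, by rw [om_J hJ]; exact hv2, h1⟩
      · push Not at h1
        have h3 : om J (J e) e = - ‖e‖ ^ 2 := by rw [om_anti hJ e (J e), om_J hJ]
        by_cases h2 : om J v (J e) ≠ 0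
        · exact ⟨J e, h2, by rw [h3]; exact neg_ne_zero.2 he2⟩
        · push Not at h2
          refine ⟨J v + J e, ?_, ?_⟩
          · rw [om_add_right, h2, om_J hJ, add_zero]; exact hv2
          · rw [om_add_left, h1, h3, zero_add]; exact neg_ne_zero.2 he2
    obtain ⟨g, h1, h2⟩ := hg
    refine ⟨_, conf_comp (conf_tv hJ (om J g e)⁻¹ (e - g)) (conf_tv hJ (om J v g)⁻¹ (g - v)), ?_⟩
    rw [ContinuousLinearMap.comp_apply, step1 hJ h1, step1 hJ h2]

theorem trans2 {J : V →L[ℝ] V} (hJ : IsCS J) {e f v : V} (hef : om J e f = 1)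
    (hev : om J e v = 1) : ∃ P : V →L[ℝ] V, Conf J P 1 ∧ P e = e ∧ P v = f := by
  by_cases h : om J v f ≠ 0
  · refine ⟨_, conf_tv hJ (om J v f)⁻¹ (f - v), step1_fix ?_, step1 hJ h⟩
    rw [om_sub_right, hef, hev, sub_self]
  · push Not at h
    have h1 : om J v (v + e) ≠ 0 := by
      rw [om_add_right, om_self hJ, om_anti hJ e v, hev]; norm_num
    have h2 : om J (v + e) f ≠ 0 := by
      rw [om_add_left, h, hef]; norm_num
    refine ⟨_, conf_comp (conf_tv hJ (om J (v + e) f)⁻¹ (f - (v + e)))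
      (conf_tv hJ (om J v (v + e))⁻¹ (v + e - v)), ?_, ?_⟩
    · rw [ContinuousLinearMap.comp_apply, step1_fix (x := e), step1_fix (x := e)]
      · rw [om_sub_right, om_add_right, hef, hev, om_self hJ]; norm_num
      · rw [om_sub_right, om_add_right, hev, om_self hJ]; norm_num
    · rw [ContinuousLinearMap.comp_apply, step1 hJ h1, step1 hJ h2]

theorem witt {J : V →L[ℝ] V} (hJ : IsCS J) {e f v v' : V} (hef : om J e f = 1)
    (hv : om J v v' = 1) : ∃ P : V →L[ℝ] V, Conf J P 1 ∧ P v = e ∧ P v' = f := by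
  have hv0 : v ≠ 0 := by rintro rfl; simp [om] at hv
  have he0 : e ≠ 0 := by rintro rfl; simp [om] at hef
  obtain ⟨P, hP, hPv⟩ := trans1 hJ hv0 he0
  have h1 : om J e (P v') = 1 := by
    rw [← hPv, hP, hv, one_mul]
  obtain ⟨Q, hQ, hQe, hQv⟩ := trans2 hJ hef h1
  refine ⟨Q.comp P, conf_comp hQ hP, ?_, ?_⟩
  · rw [ContinuousLinearMap.comp_apply, hPv, hQe]
  · rw [ContinuousLinearMap.comp_apply, hQv]

theorem main : Pool.Agent.Y52.SJ.S_WITT := by
  intro V _ _ _ J hJ v v' e f hv hef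
  exact witt hJ hef hv

end Pool.Agent.Y540.SJ
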